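import Mathlib
import Pool.Agent.H.MP_34b196_pr.A

namespace Pool.Agent.Results.MP_34b196_pr.Continuum

open MeasureTheory ProbabilityTheory Filter Topology Set Pool.Agent.H.MP_34b196_pr

section
variable {X : Type}

lemma mono_add (s : X → ℝ) (f g : X →₀ ℕ) : mono s (f + g) = mono s f * mono s g :=
  Finsupp.prod_add_index' (by simp) (by simp [pow_add])

lemma mono_sum {ι : Type} (s : X → ℝ) (t : Finset ι) (f : ι → X →₀ ℕ) :
    mono s (∑ i ∈ t, f i) = ∏ i ∈ t, mono s (f i) := by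
  classical
  induction t using Finset.induction_on with
  | empty => simp [mono]
  | insert a t ha ih => rw [Finset.sum_insert ha, Finset.prod_insert ha, mono_add, ih]

lemma mono_one (f : X →₀ ℕ) : mono 1 f = 1 := by simp [mono, Finsupp.prod]

open Classical in
lemma mono_kill (A : Set X) (v : X → ℝ) (f : X →₀ ℕ) :
    mono (fun y => if y ∈ A then 0 else v y) f = if ∀ y ∈ A, f y = 0 then mono v f else 0 := by
  split_ifs with h
  · refine Finset.prod_congr rfl fun y hy => ?_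
    simp only [if_neg fun hA => (Finsupp.mem_support_iff.1 hy) (h y hA)]
  · push Not at h
    obtain ⟨y, hy, hf⟩ := h
    exact Finset.prod_eq_zero (Finsupp.mem_support_iff.2 hf) (by simp [hy, hf])

variable [Countable X] [MeasurableSpace (X →₀ ℕ)] [DiscreteMeasurableSpace (X →₀ ℕ)]
  {Ω : Type} [mΩ : MeasurableSpace Ω] {P : Measure Ω} [IsProbabilityMeasure P]
  {μ : X → Measure (X →₀ ℕ)} [∀ x, IsProbabilityMeasure (μ x)] {ξ : ℕ × X × ℕ → Ω → X →₀ ℕ}

/-- the σ-algebra of the offspring variables with index in `S` -/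
def sig (ξ : ℕ × X × ℕ → Ω → X →₀ ℕ) (S : Set (ℕ × X × ℕ)) : MeasurableSpace Ω :=
  ⨆ i ∈ S, MeasurableSpace.comap (ξ i) inferInstance

noncomputable def step (ξ : ℕ × X × ℕ → Ω → X →₀ ℕ) (n : ℕ) (z : X →₀ ℕ) (ω : Ω) : X →₀ ℕ :=
  z.sum fun y k => ∑ i ∈ Finset.range k, ξ (n, y, i) ω

omit mΩ in
lemma step_meas {S : Set (ℕ × X × ℕ)} {n : ℕ} (h : ∀ y i, (n, y, i) ∈ S) (z : X →₀ ℕ) :
    Measurable[sig ξ S] (step ξ n z) := by
  letI := sig ξ S
  refine Finset.measurable_fun_sum _ fun y _ => Finset.measurable_fun_sum _ fun i _ => ?_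
  exact measurable_iff_comap_le.2 (le_iSup₂_of_le (f := fun i (_ : i ∈ S) =>
    MeasurableSpace.comap (ξ i) inferInstance) (n, y, i) (h y i) le_rfl)

omit mΩ in
lemma Z_meas (x : X) {n m : ℕ} (h : n ≤ m) : Measurable[sig ξ {i | i.1 < m}] (Z ξ x n) := by
  letI := sig ξ {i | i.1 < m}
  induction n with
  | zero => exact measurable_const
  | succ n ih =>
    have h1 : Measurable fun p : Ω × (X →₀ ℕ) => step ξ n p.2 p.1 :=
      measurable_from_prod_countable_left fun z => step_meas (fun y i => by simpa using h) z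
    exact h1.comp (measurable_id.prodMk (ih (by omega)))

omit [Countable X] [DiscreteMeasurableSpace (X →₀ ℕ)] in
lemma sig_le (hm : ∀ i, Measurable (ξ i)) (S : Set (ℕ × X × ℕ)) : sig ξ S ≤ mΩ :=
  iSup₂_le fun i _ => (hm i).comap_le

variable (hm : ∀ i, Measurable (ξ i)) (hi : iIndepFun ξ P) (hl : ∀ i, P.map (ξ i) = μ i.2.1)
include hm hi hl

omit [Countable X] [IsProbabilityMeasure P] [∀ x, IsProbabilityMeasure (μ x)] in
lemma step_int (n : ℕ) (z : X →₀ ℕ) (s : X → ℝ) :
    ∫ ω, mono s (step ξ n z ω) ∂P = mono (G μ s) z := by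
  set J := z.support.sigma fun y => Finset.range (z y)
  have e : ∀ ω, mono s (step ξ n z ω) = ∏ j : J, mono s (ξ (n, j.1.1, j.1.2) ω) := fun ω => by
    rw [Finset.prod_coe_sort J fun j => mono s (ξ (n, j.1, j.2) ω), Finset.prod_sigma, step,
      Finsupp.sum, mono_sum]
    simp only [mono_sum]
  have inj : Function.Injective fun j : J => ((n, j.1.1, j.1.2) : ℕ × X × ℕ) := by
    rintro ⟨⟨a, b⟩, _⟩ ⟨⟨c, d⟩, _⟩ h
    simp only [Prod.mk.injEq, true_and] at h
    obtain ⟨rfl, rfl⟩ := h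
    rfl
  simp only [e]
  rw [(hi.precomp inj).integral_fun_prod_comp (f := fun _ => mono s) (fun j => (hm _).aemeasurable)
    fun j => Measurable.of_discrete.aestronglyMeasurable]
  have e2 : ∀ j : J, ∫ ω, mono s (ξ (n, j.1.1, j.1.2) ω) ∂P = G μ s j.1.1 := fun j => by
    rw [G, ← hl (n, j.1.1, j.1.2), integral_map (hm _).aemeasurable
      Measurable.of_discrete.aestronglyMeasurable]
  simp only [e2]
  rw [Finset.prod_coe_sort J fun j => G μ s j.1, Finset.prod_sigma]
  simp [mono, Finsupp.prod]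

lemma markov (x : X) (n : ℕ) {s : X → ℝ} (hs : s ∈ Icc (0 : X → ℝ) 1) {E : Set Ω}
    (hE : MeasurableSet[sig ξ {i | i.1 < n}] E) :
    ∫ ω in E, mono s (Z ξ x (n + 1) ω) ∂P = ∫ ω in E, mono (G μ s) (Z ξ x n ω) ∂P := by
  have hZ : ∀ k, Measurable (Z ξ x k) := fun k => (Z_meas x le_rfl).mono (sig_le hm _) le_rfl
  have hint : ∀ k {v : X → ℝ}, v ∈ Icc (0 : X → ℝ) 1 → Integrable (fun ω => mono v (Z ξ x k ω)) P :=
    fun k v hv => (integrable_const (1 : ℝ)).mono'
      ((Measurable.of_discrete (f := mono v)).comp (hZ k)).aestronglyMeasurable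
      (Eventually.of_forall fun ω => mono_norm hv _)
  have hEz : ∀ z, MeasurableSet[sig ξ {i | i.1 < n}] (E ∩ Z ξ x n ⁻¹' {z}) := fun z =>
    hE.inter (Z_meas x le_rfl (measurableSet_singleton z))
  have hU : E = ⋃ z, E ∩ Z ξ x n ⁻¹' {z} := by ext ω; simp
  have hd : Pairwise (Function.onFun Disjoint fun z => E ∩ Z ξ x n ⁻¹' {z}) := fun a b hab =>
    disjoint_left.2 fun ω h1 h2 => hab (h1.2.symm.trans h2.2)
  rw [hU, integral_iUnion (fun z => sig_le hm _ _ (hEz z)) hd (hint _ hs).integrableOn,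
    integral_iUnion (fun z => sig_le hm _ _ (hEz z)) hd (hint _ (G_mem hs)).integrableOn]
  refine tsum_congr fun z => ?_
  have hind : Indep (sig ξ {i | i.1 < n}) (sig ξ {i | i.1 = n}) P :=
    indep_iSup_of_disjoint (fun i => (hm i).comap_le) hi.iIndep
      (disjoint_left.2 fun i h1 h2 => by simp only [mem_ofPred_eq] at h1 h2; omega)
  have hst : Measurable[sig ξ {i | i.1 = n}] (step ξ n z) := step_meas (fun _ _ => rfl) z
  rw [setIntegral_congr_fun (f := fun ω => mono s (Z ξ x (n + 1) ω))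
      (g := fun ω => mono s (step ξ n z ω)) (sig_le hm _ _ (hEz z))
      (fun ω hω => by rw [← show Z ξ x n ω = z from hω.2]; rfl),
    setIntegral_congr_fun (f := fun ω => mono (G μ s) (Z ξ x n ω))
      (g := fun _ => mono (G μ s) z) (sig_le hm _ _ (hEz z))
      (fun ω hω => by rw [← show Z ξ x n ω = z from hω.2]),
    Indep.setIntegral_eq_mul (sig_le hm _) (indep_of_indep_of_le_right hind hst.comap_le)
      (hst.mono (sig_le hm _) le_rfl).aemeasurable (hEz z) Measurable.of_discrete.aestronglyMeasurable,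
    step_int hm hi hl]
  simp

lemma iter_mem {v : X → ℝ} (hv : v ∈ Icc (0 : X → ℝ) 1) (m : ℕ) : (G μ)^[m] v ∈ Icc (0 : X → ℝ) 1 := by
  induction m with
  | zero => exact hv
  | succ m ih => rw [Function.iterate_succ_apply']; exact G_mem ih

lemma gen (x : X) (m : ℕ) : ∀ {v : X → ℝ}, v ∈ Icc (0 : X → ℝ) 1 →
    ∫ ω, mono v (Z ξ x m ω) ∂P = (G μ)^[m] v x := by
  induction m with
  | zero => intro v _; simp [Z, mono]
  | succ m ih =>
    intro v hv
    have := markov hm hi hl x m hv MeasurableSet.univ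
    rw [Measure.restrict_univ] at this
    rw [this, ih (G_mem hv), Function.iterate_succ_apply]

open Classical in
lemma avoid (A : Set X) (x : X) (m k : ℕ) : ∀ {v : X → ℝ}, v ∈ Icc (0 : X → ℝ) 1 →
    ∫ ω in {ω | ∀ n, m ≤ n → n < m + k → ∀ y ∈ A, Z ξ x n ω y = 0}, mono v (Z ξ x (m + k) ω) ∂P =
      (G μ)^[m] ((fun u y => if y ∈ A then 0 else G μ u y)^[k] v) x := by
  induction k with
  | zero =>
    intro v hv
    rw [show {ω | ∀ n, m ≤ n → n < m + 0 → ∀ y ∈ A, Z ξ x n ω y = 0} = univ from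
      eq_univ_of_forall fun ω n a b => by omega, Measure.restrict_univ]
    exact gen hm hi hl x m hv
  | succ k ih =>
    intro v hv
    have hmem : (fun y => if y ∈ A then 0 else G μ v y) ∈ Icc (0 : X → ℝ) 1 := by
      constructor <;> intro y <;> simp only <;> split_ifs
      exacts [le_rfl, (G_mem hv).1 y, zero_le_one, (G_mem hv).2 y]
    have hE : ∀ j ≤ k + 1, MeasurableSet[sig ξ {i | i.1 < m + k}]
        {ω | ∀ n, m ≤ n → n < m + j → ∀ y ∈ A, Z ξ x n ω y = 0} := fun j hj => by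
      letI := sig ξ {i | i.1 < m + k}
      rw [show {ω | ∀ n, m ≤ n → n < m + j → ∀ y ∈ A, Z ξ x n ω y = 0} =
        ⋂ n, ⋂ _ : m ≤ n, ⋂ _ : n < m + j, Z ξ x n ⁻¹' {f | ∀ y ∈ A, f y = 0} by ext; simp]
      exact MeasurableSet.iInter fun n => MeasurableSet.iInter fun _ => MeasurableSet.iInter fun h =>
        Z_meas (ξ := ξ) x (n := n) (m := m + k) (by omega) MeasurableSet.of_discrete
    rw [show Z ξ x (m + (k + 1)) = Z ξ x (m + k + 1) from rfl, markov hm hi hl x (m + k) hv (hE _ le_rfl), Function.iterate_succ_apply,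
      ← ih hmem, ← integral_indicator (sig_le hm _ _ (hE _ le_rfl)),
      ← integral_indicator (sig_le hm _ _ (hE k (by omega)))]
    refine integral_congr_ae (Eventually.of_forall fun ω => ?_)
    simp only [indicator, mem_ofPred_eq, mono_kill]
    by_cases a : ∀ n, m ≤ n → n < m + k → ∀ y ∈ A, Z ξ x n ω y = 0
    · by_cases b : ∀ y ∈ A, Z ξ x (m + k) ω y = 0
      · rw [if_pos a, if_pos b, if_pos]
        intro n h1 h2
        rcases (show n < m + k ∨ n = m + k by omega) with h | rfl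
        exacts [a n h1 h, b]
      · rw [if_pos a, if_neg b, if_neg fun h => b (h _ (by omega) (by omega))]
    · rw [if_neg a, if_neg fun h => a fun n h1 h2 => h n h1 (by omega)]

omit hi hl [IsProbabilityMeasure P] [∀ x, IsProbabilityMeasure (μ x)] in
lemma ms (x : X) (n : ℕ) (S : Set (X →₀ ℕ)) : MeasurableSet (Z ξ x n ⁻¹' S) :=
  (Z_meas x le_rfl).mono (sig_le hm _) le_rfl MeasurableSet.of_discrete

omit hm hi hl in
lemma lim_up {E : ℕ → Set Ω} (h : Monotone E) :
    Tendsto (fun n => P.real (E n)) atTop (𝓝 (P.real (⋃ n, E n))) :=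
  (ENNReal.tendsto_toReal (measure_ne_top _ _)).comp (tendsto_measure_iUnion_atTop h)

omit hm hi hl in
lemma lim_down {E : ℕ → Set Ω} (h : Antitone E) (hE : ∀ n, MeasurableSet (E n)) :
    Tendsto (fun n => P.real (E n)) atTop (𝓝 (P.real (⋂ n, E n))) :=
  (ENNReal.tendsto_toReal (measure_ne_top _ _)).comp (tendsto_measure_iInter_atTop
    (fun n => (hE n).nullMeasurableSet) h ⟨0, measure_ne_top _ _⟩)

lemma ext_eq (x : X) (k : ℕ) : (G μ)^[k] 0 x = P.real (Z ξ x k ⁻¹' {0}) := by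
  rw [← gen hm hi hl x k ⟨le_rfl, zero_le_one⟩, ← integral_indicator_one (ms hm x k _)]
  refine integral_congr_ae (Eventually.of_forall fun ω => ?_)
  have := mono_kill univ 1 (Z ξ x k ω)
  simp only [mem_univ, if_true, mono_one, true_imp_iff] at this
  change mono (fun _ => 0) _ = _
  rw [this]
  by_cases h : Z ξ x k ω = 0
  · simp [indicator, h]
  · rw [if_neg fun h' => h (Finsupp.ext fun y => h' y trivial), indicator_of_notMem (by simpa using h)]

lemma sol (A : Set X) {x : X} {c : ℝ} (hc0 : ∀ k, (G μ)^[k] 0 x ≤ c)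
    (hc1 : c ≤ P.real (⋃ m, ⋂ n, ⋂ _ : m ≤ n, Z ξ x n ⁻¹' {f | ∀ y ∈ A, f y = 0})) :
    ∃ s ∈ Icc (0 : X → ℝ) 1, (s ≤ fun x => P.real (⋃ m, ⋂ n, ⋂ _ : m ≤ n,
      Z ξ x n ⁻¹' {f | ∀ y ∈ A, f y = 0})) ∧ s x = c ∧ ∀ y ∈ A, G μ s y = s y := by
  classical
  set r : ℕ → X → ℝ := fun k => (fun u y => if y ∈ A then 0 else G μ u y)^[k] 1 with hr
  have rm : ∀ k, r k ∈ Icc (0 : X → ℝ) 1 := fun k => by
    induction k with
    | zero => exact ⟨zero_le_one, le_rfl⟩
    | succ k ih =>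
      simp only [hr, Function.iterate_succ_apply']
      constructor <;> intro y <;> simp only <;> split_ifs
      exacts [le_rfl, (G_mem ih).1 y, zero_le_one, (G_mem ih).2 y]
  have key : ∀ m, Tendsto (fun k => (G μ)^[m] (r k)) atTop (𝓝 fun x =>
      P.real (⋂ n, ⋂ _ : m ≤ n, Z ξ x n ⁻¹' {f | ∀ y ∈ A, f y = 0})) := fun m => by
    refine tendsto_pi_nhds.2 fun x => ?_
    have h1 := lim_down (P := P) (E := fun k => ⋂ n, ⋂ _ : m ≤ n, ⋂ _ : n < m + k,
      Z ξ x n ⁻¹' {f | ∀ y ∈ A, f y = 0}) (fun a b hab ω hω => by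
        simp only [mem_iInter] at hω ⊢
        exact fun n h1 h2 => hω n h1 (by omega))
      fun k => MeasurableSet.iInter fun n => MeasurableSet.iInter fun _ =>
        MeasurableSet.iInter fun _ => ms hm x n _
    rw [show (⋂ k, ⋂ n, ⋂ _ : m ≤ n, ⋂ _ : n < m + k, Z ξ x n ⁻¹' {f | ∀ y ∈ A, f y = 0}) =
      ⋂ n, ⋂ _ : m ≤ n, Z ξ x n ⁻¹' {f | ∀ y ∈ A, f y = 0} by
        ext ω; simp only [mem_iInter]
        exact ⟨fun h n h1 => h (n + 1) n h1 (by omega), fun h _ n h1 _ => h n h1⟩] at h1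
    refine h1.congr fun k => ?_
    have := avoid hm hi hl A x m k (v := 1) ⟨zero_le_one, le_rfl⟩
    simp only [mono_one, integral_const, smul_eq_mul, mul_one, measureReal_restrict_apply_univ] at this
    rw [hr, ← this]
    congr 1
    ext; simp
  refine local_sol (ρ := fun m x => P.real (⋂ n, ⋂ _ : m ≤ n, Z ξ x n ⁻¹' {f | ∀ y ∈ A, f y = 0}))
    (fun m => ⟨fun _ => measureReal_nonneg, fun _ => measureReal_le_one⟩) (fun y hy => ?_)
    (fun m => ?_) (fun m x => measureReal_mono (subset_iUnion (fun m => ⋂ n, ⋂ _ : m ≤ n,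
      Z ξ x n ⁻¹' {f | ∀ y ∈ A, f y = 0}) m)) (tendsto_pi_nhds.2 fun x => lim_up fun a b hab ω hω => ?_)
    hc0 hc1
  · rw [show (⋂ n, ⋂ _ : 0 ≤ n, Z ξ y n ⁻¹' {f | ∀ y ∈ A, f y = 0}) = ∅ from
      eq_empty_of_forall_notMem fun ω hω => by
        have := (mem_iInter₂.1 hω 0 le_rfl) y hy
        simp [Z] at this]
    simp
  · refine tendsto_nhds_unique (key (m + 1)) ((G_lim (fun k => iter_mem hm hi hl (rm k) m) (key m)).congr
      fun k => ?_)
    rw [Function.iterate_succ_apply']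
  · simp only [mem_iInter] at hω ⊢
    exact fun n h => hω n (hab.trans h)

end

/-- probability of global extinction from one individual of type `x` -/
noncomputable def qG {X Ω : Type} [MeasurableSpace Ω] (P : Measure Ω) (ξ : ℕ × X × ℕ → Ω → X →₀ ℕ)
    (x : X) : ℝ := P.real {ω | ∃ n, Z ξ x n ω = 0}

/-- probability of partial extinction from one individual of type `x` -/
noncomputable def qP {X Ω : Type} [MeasurableSpace Ω] (P : Measure Ω) (ξ : ℕ × X × ℕ → Ω → X →₀ ℕ)
    (x : X) : ℝ := P.real {ω | ∀ y, {n | Z ξ x n ω y ≠ 0}.Finite}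

theorem result {X : Type} [Countable X] [MeasurableSpace (X →₀ ℕ)] [DiscreteMeasurableSpace (X →₀ ℕ)]
    (μ : X → Measure (X →₀ ℕ)) [∀ x, IsProbabilityMeasure (μ x)]
    {Ω : Type} [MeasurableSpace Ω] (P : Measure Ω) [IsProbabilityMeasure P]
    (ξ : ℕ × X × ℕ → Ω → X →₀ ℕ) (hm : ∀ i, Measurable (ξ i)) (hi : iIndepFun ξ P)
    (hl : ∀ i, P.map (ξ i) = μ i.2.1) (hle : qG P ξ ≤ qP P ξ) (hne : qG P ξ ≠ qP P ξ) :
    Cardinal.mk {s : X → ℝ | s ∈ Icc (0 : X → ℝ) 1 ∧ G μ s = s ∧ qG P ξ ≤ s ∧ s ≤ qP P ξ} =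
      Cardinal.continuum := by
  obtain ⟨x, hx⟩ : ∃ x, qG P ξ x < qP P ξ x := by
    by_contra h
    push Not at h
    exact hne (le_antisymm hle h)
  obtain ⟨e, he⟩ := exists_injective_nat X
  have hq : ∀ y, qG P ξ y = P.real (⋃ k, Z ξ y k ⁻¹' {0}) := fun y => by
    unfold qG; congr 1; ext; simp
  have hmin : ∀ s ∈ Icc (0 : X → ℝ) 1, G μ s = s → qG P ξ ≤ s := fun s hs hfix y => by
    rw [hq]
    refine le_of_tendsto' (lim_up (monotone_nat_of_le_succ fun k ω hω => ?_)) fun k => ?_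
    · simp only [mem_preimage, mem_singleton_iff] at hω ⊢
      simp [Z, hω]
    · rw [← ext_eq hm hi hl]
      refine (?_ : (G μ)^[k] 0 ≤ s) y
      induction k with
      | zero => exact hs.1
      | succ k ih =>
        rw [Function.iterate_succ_apply', ← hfix]
        exact G_mo (iter_mem hm hi hl ⟨le_rfl, zero_le_one⟩ k) hs ih
  set W : ℕ → X → Set Ω := fun N y => ⋃ m, ⋂ n, ⋂ _ : m ≤ n,
    Z ξ y n ⁻¹' {f | ∀ z ∈ {z | e z < N}, f z = 0} with hW
  have hI : ∀ y, ⋂ N, W N y = {ω | ∀ z, {n | Z ξ y n ω z ≠ 0}.Finite} := fun y => by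
    ext ω
    simp only [hW, mem_iInter, mem_iUnion, mem_preimage, mem_ofPred_eq]
    constructor
    · intro h z
      obtain ⟨m, hm⟩ := h (e z + 1)
      exact (finite_Iio m).subset fun n hn => not_le.1 fun hmn => hn (hm n hmn z (by omega))
    · intro h N
      have hf : {z | e z < N}.Finite := (finite_Iio N).preimage he.injOn
      obtain ⟨m, hm⟩ := (hf.biUnion fun z _ => h z).bddAbove
      refine ⟨m + 1, fun n hn z hz => ?_⟩
      by_contra hc
      have := hm (mem_biUnion hz hc)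
      omega
  have hlim : Tendsto (fun N y => P.real (W N y)) atTop (𝓝 (qP P ξ)) := by
    refine tendsto_pi_nhds.2 fun y => ?_
    unfold qP
    rw [← hI]
    refine lim_down (fun a b hab ω hω => ?_) fun N => MeasurableSet.iUnion fun m =>
      MeasurableSet.iInter fun n => MeasurableSet.iInter fun _ => ms hm y n _
    simp only [hW, mem_iInter, mem_iUnion, mem_preimage, mem_ofPred_eq] at hω ⊢
    obtain ⟨m, hm⟩ := hω
    exact ⟨m, fun n hn z hz => hm n hn z (by omega)⟩
  have main : ∀ c : Icc (qG P ξ x) (qP P ξ x), ∃ s ∈ Icc (0 : X → ℝ) 1, s ≤ qP P ξ ∧ s x = c ∧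
      G μ s = s := fun c => by
    refine global_sol (A := fun N => {z | e z < N}) (fun y => eventually_gt_atTop (e y)) hlim
      fun N => sol hm hi hl _ (fun k => ?_) (c.2.2.trans ?_)
    · refine le_trans ?_ c.2.1
      rw [ext_eq hm hi hl, hq]
      exact measureReal_mono (subset_iUnion (fun k => Z ξ x k ⁻¹' {0}) k)
    · unfold qP
      rw [← hI]
      exact measureReal_mono (iInter_subset (fun N => W N x) N)
  choose s h1 h2 h3 h4 using main
  refine le_antisymm ((Cardinal.mk_set_le _).trans ?_) ?_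
  · rw [← Cardinal.power_def, Cardinal.mk_real, ← Cardinal.continuum_power_aleph0]
    conv_lhs => rw [Cardinal.continuum_power_aleph0]
    exact Cardinal.power_le_power_left Cardinal.continuum_ne_zero Cardinal.mk_le_aleph0
  · rw [← Cardinal.mk_Icc_real hx]
    refine Cardinal.mk_le_of_injective (f := fun c => ⟨s c, h1 c, h4 c, hmin _ (h1 c) (h4 c), h2 c⟩)
      fun a b hab => Subtype.ext ?_
    rw [← h3 a, ← h3 b, show s a = s b from congrArg Subtype.val hab]

end Pool.Agent.Results.MP_34b196_pr.Continuum
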